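import Mathlib

namespace Pool.Agent.Results.MP_ca6fba_co.Counter

/-- `WaiterWins E U C`: Waiter has a winning strategy when `U` is the set of unclaimed vertices
and `C` is the set of vertices claimed by Client so far. -/
inductive WaiterWins {V : Type} [DecidableEq V] (E : Finset (Finset V)) :
    Finset V → Finset V → Prop
  | done (U C) : U = ∅ → (∀ e ∈ E, ¬ e ⊆ C) → WaiterWins E U C
  | last (U C v) : U = {v} → (∀ e ∈ E, ¬ e ⊆ insert v C) → WaiterWins E U C
  | step (U C a b) : a ∈ U → b ∈ U → a ≠ b → WaiterWins E (U \ {a, b}) (insert a C) →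
      WaiterWins E (U \ {a, b}) (insert b C) → WaiterWins E U C

def TwoColourable {V : Type} (E : Finset (Finset V)) : Prop :=
  ∃ c : V → Bool, ∀ e ∈ E, ¬ ∃ x, ∀ v ∈ e, c v = x

def L : List (Finset (Fin 8)) := [{0, 2, 3}, {0, 4, 6, 7}, {0, 5, 6, 7}, {1, 2, 6, 7}, {1, 3, 6, 7}, {1, 4, 5}, {2, 3, 4, 5}, {2, 3, 7}, {2, 4, 7}, {2, 5, 6}, {3, 4, 6}, {3, 5, 7}, {4, 5, 7}]

theorem result : ∃ (n : ℕ) (E : Finset (Finset (Fin n))),
    WaiterWins E Finset.univ ∅ ∧ ¬ TwoColourable E := by
  refine ⟨8, L.toFinset, ?_, ?_⟩
  · refine .step _ _ 0 1 (by decide) (by decide) (by decide) ?_ ?_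
    · refine .step _ _ 2 3 (by decide) (by decide) (by decide) ?_ ?_
      · refine .step _ _ 4 7 (by decide) (by decide) (by decide) ?_ ?_
        · refine .step _ _ 5 6 (by decide) (by decide) (by decide) ?_ ?_
          · exact .done _ _ (by decide) (by decide +kernel)
          · exact .done _ _ (by decide) (by decide +kernel)
        · refine .step _ _ 5 6 (by decide) (by decide) (by decide) ?_ ?_
          · exact .done _ _ (by decide) (by decide +kernel)
          · exact .done _ _ (by decide) (by decide +kernel)
      · refine .step _ _ 4 6 (by decide) (by decide) (by decide) ?_ ?_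
        · refine .step _ _ 5 7 (by decide) (by decide) (by decide) ?_ ?_
          · exact .done _ _ (by decide) (by decide +kernel)
          · exact .done _ _ (by decide) (by decide +kernel)
        · refine .step _ _ 5 7 (by decide) (by decide) (by decide) ?_ ?_
          · exact .done _ _ (by decide) (by decide +kernel)
          · exact .done _ _ (by decide) (by decide +kernel)
    · refine .step _ _ 4 5 (by decide) (by decide) (by decide) ?_ ?_
      · refine .step _ _ 2 7 (by decide) (by decide) (by decide) ?_ ?_
        · refine .step _ _ 3 6 (by decide) (by decide) (by decide) ?_ ?_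
          · exact .done _ _ (by decide) (by decide +kernel)
          · exact .done _ _ (by decide) (by decide +kernel)
        · refine .step _ _ 3 6 (by decide) (by decide) (by decide) ?_ ?_
          · exact .done _ _ (by decide) (by decide +kernel)
          · exact .done _ _ (by decide) (by decide +kernel)
      · refine .step _ _ 2 6 (by decide) (by decide) (by decide) ?_ ?_
        · refine .step _ _ 3 7 (by decide) (by decide) (by decide) ?_ ?_
          · exact .done _ _ (by decide) (by decide +kernel)
          · exact .done _ _ (by decide) (by decide +kernel)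
        · refine .step _ _ 3 7 (by decide) (by decide) (by decide) ?_ ?_
          · exact .done _ _ (by decide) (by decide +kernel)
          · exact .done _ _ (by decide) (by decide +kernel)
  · rintro ⟨c, hc⟩
    have key : ∀ a0 a1 a2 a3 a4 a5 a6 a7 : Bool, ∃ e ∈ L, ∃ x, ∀ v ∈ e,
        ![a0, a1, a2, a3, a4, a5, a6, a7] v = x := by decide +kernel
    obtain ⟨e, he, x, hx⟩ := key (c 0) (c 1) (c 2) (c 3) (c 4) (c 5) (c 6) (c 7)
    refine hc e (List.mem_toFinset.2 he) ⟨x, fun v hv => ?_⟩
    have := hx v hv
    fin_cases v <;> simpa using this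

end Pool.Agent.Results.MP_ca6fba_co.Counter
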